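import Mathlib

namespace Pool.Agent.Results.MP_d8826e_co.Bound
open Finset

/-- `k`-uniform, no isolated vertex, no isolated edge -/
def InH {n : ℕ} (k : ℕ) (E : Finset (Finset (Fin n))) : Prop :=
  (∀ e ∈ E, e.card = k) ∧ (∀ v, ∃ e ∈ E, v ∈ e) ∧ ∀ e ∈ E, ∃ f ∈ E, f ≠ e ∧ ¬ Disjoint e f

/-- total transversal -/
def TT {n : ℕ} (E : Finset (Finset (Fin n))) (T : Finset (Fin n)) : Prop :=
  (∀ e ∈ E, ∃ v ∈ T, v ∈ e) ∧ ∀ v ∈ T, ∃ u ∈ T, u ≠ v ∧ ∃ e ∈ E, u ∈ e ∧ v ∈ e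

/-- `τ_t` -/
noncomputable def tau {n : ℕ} (E : Finset (Finset (Fin n))) : ℕ :=
  sInf {t | ∃ T, TT E T ∧ T.card = t}

/-- `b_k` -/
noncomputable def b (k : ℕ) : ℝ :=
  sSup {x | ∃ (n : ℕ) (E : Finset (Finset (Fin n))), InH k E ∧ x = (tau E : ℝ) / (n + E.card)}

def dot (u x : ℕ) : Bool :=
  let y := u &&& x
  (y + y / 2 + y / 4 + y / 8 + y / 16) % 2 == 1

def ed (u : Fin 31) : Finset (Fin 93) := univ.filter fun v => dot (u + 1) (v / 3 + 1) = true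

theorem mem_ed {u v} : v ∈ ed u ↔ dot (u + 1) (v / 3 + 1) = true := by simp [ed]

theorem l1 : ∀ u, (ed u).card = 48 := by decide +kernel
theorem l2 : ∀ v : Fin 93, ∃ u : Fin 31, dot (u + 1) (v / 3 + 1) = true ∧
    ∃ w : Fin 93, w ≠ v ∧ dot (u + 1) (w / 3 + 1) = true := by decide +kernel
theorem l3 : ∀ u : Fin 31, ∃ w : Fin 31, (∃ v : Fin 93, dot (w + 1) (v / 3 + 1) = true ∧
    ¬ dot (u + 1) (v / 3 + 1) = true) ∧
    ∃ v : Fin 93, dot (w + 1) (v / 3 + 1) = true ∧ dot (u + 1) (v / 3 + 1) = true := by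
  decide +kernel
theorem l4 : ∀ u w : Fin 32, u ≠ w → 1 ≤ u.1 ^^^ w.1 ∧ u.1 ^^^ w.1 < 32 ∧
    ∀ x : Fin 32, dot (u.1 ^^^ w.1) x = true → dot u x ≠ dot w x := by decide +kernel

theorem five {T : Finset (Fin 93)} (h : TT (univ.image ed) T) : 5 ≤ T.card := by
  have inj : Function.Injective fun (u : Fin 32) (v : T) => dot u (v.1 / 3 + 1) := by
    intro u w e
    by_contra c
    obtain ⟨h1, h2, h3⟩ := l4 u w c
    obtain ⟨v, hv, k⟩ := h.1 (ed ⟨(u.1 ^^^ w.1) - 1, by omega⟩) (mem_image_of_mem _ (mem_univ _))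
    rw [mem_ed, Nat.sub_add_cancel h1] at k
    exact h3 ⟨v / 3 + 1, by omega⟩ k (congrFun e ⟨v, hv⟩)
  have := Fintype.card_le_of_injective _ inj
  simp only [Fintype.card_fin, Fintype.card_fun, Fintype.card_bool, Fintype.card_coe] at this
  by_contra c
  have := Nat.pow_le_pow_right (show 0 < 2 by omega) (show T.card ≤ 4 by omega)
  omega

theorem result : (2 : ℝ) / (49 + 1) < b (49 - 1) := by
  have bd : BddAbove {x : ℝ | ∃ (n : ℕ) (E : Finset (Finset (Fin n))), InH (49 - 1) E ∧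
      x = (tau E : ℝ) / (n + E.card)} := by
    refine ⟨1, ?_⟩
    rintro _ ⟨n, E, -, rfl⟩
    have : tau E ≤ n := by
      rcases Set.eq_empty_or_nonempty {t | ∃ T, TT E T ∧ T.card = t} with e | e
      · rw [tau, e]; simp
      · obtain ⟨T, -, e⟩ := Nat.sInf_mem e
        rw [tau, ← e]
        simpa using card_le_univ T
    refine div_le_one_of_le₀ ?_ (by positivity)
    exact_mod_cast this.trans (Nat.le_add_right _ _)
  refine lt_of_lt_of_le ?_ (le_csSup bd ⟨93, univ.image ed, ⟨?_, fun v => ?_, ?_⟩, rfl⟩)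
  · have ne : {t | ∃ T, TT (univ.image ed) T ∧ T.card = t}.Nonempty := by
      refine ⟨_, univ, ⟨fun e he => ?_, fun v _ => ?_⟩, rfl⟩
      · obtain ⟨u, -, rfl⟩ := mem_image.1 he
        obtain ⟨v, hv⟩ := card_pos.1 (show 0 < (ed u).card by rw [l1]; omega)
        exact ⟨v, mem_univ _, hv⟩
      · obtain ⟨u, h, w, h1, h2⟩ := l2 v
        exact ⟨w, mem_univ _, h1, ed u, mem_image_of_mem _ (mem_univ _), mem_ed.2 h2, mem_ed.2 h⟩
    obtain ⟨T, h, e⟩ := Nat.sInf_mem ne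
    have h5 : (5 : ℝ) ≤ tau (univ.image ed) := by
      rw [tau, ← e]; exact_mod_cast five h
    have hm : ((univ.image ed).card : ℝ) ≤ 31 := by
      exact_mod_cast card_image_le.trans (by simp)
    rw [div_lt_div_iff₀ (by norm_num) (by positivity)]
    push_cast
    linarith
  · intro e he
    obtain ⟨u, -, rfl⟩ := mem_image.1 he
    exact l1 u
  · obtain ⟨u, h, -⟩ := l2 v
    exact ⟨ed u, mem_image_of_mem _ (mem_univ _), mem_ed.2 h⟩
  · intro e he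
    obtain ⟨u, -, rfl⟩ := mem_image.1 he
    obtain ⟨w, ⟨v, h1, h2⟩, x, h3, h4⟩ := l3 u
    exact ⟨ed w, mem_image_of_mem _ (mem_univ _), fun e => h2 (mem_ed.1 (e ▸ mem_ed.2 h1)),
      not_disjoint_iff.2 ⟨x, mem_ed.2 h4, mem_ed.2 h3⟩⟩

end Pool.Agent.Results.MP_d8826e_co.Bound
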